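import Mathlib
import Pool.Agent.W2helper59.CW.Stm

/-!
# Project CW (helper59, S06917), piece RAT: monotonicity of the Gamma ratio
-/

set_option autoImplicit false

namespace Pool.Agent.W2helper87.CW

open Filter Topology Finset

/-- second multiplicative difference of `Γ` with step `h` -/
noncomputable def Q (h x : ℝ) : ℝ :=
  Real.Gamma (x + 2 * h) * Real.Gamma x / Real.Gamma (x + h) ^ 2

/-- the factor of the product -/
noncomputable def F (h x : ℝ) : ℝ := (x + h) ^ 2 / (x * (x + 2 * h))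

lemma F_pos {h x : ℝ} (hh : 0 < h) (hx : 0 < x) : 0 < F h x := by
  unfold F; positivity

lemma F_eq {h x : ℝ} (hh : 0 < h) (hx : 0 < x) : F h x = 1 + h ^ 2 / (x * (x + 2 * h)) := by
  unfold F
  have : x * (x + 2 * h) ≠ 0 := by positivity
  field_simp
  ring

lemma F_anti {h x y : ℝ} (hh : 0 < h) (hx : 0 < x) (hxy : x < y) : F h y < F h x := by
  have hy : 0 < y := hx.trans hxy
  rw [F_eq hh hx, F_eq hh hy]
  have h1 : x * (x + 2 * h) < y * (y + 2 * h) := by nlinarith
  have h2 : h ^ 2 / (y * (y + 2 * h)) < h ^ 2 / (x * (x + 2 * h)) :=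
    div_lt_div_of_pos_left (by positivity) (by positivity) h1
  linarith

/-- the approximants of `Q` -/
lemma seq_eq {h x : ℝ} (hh : 0 < h) (hx : 0 < x) {n : ℕ} (hn : 0 < n) :
    Real.GammaSeq (x + 2 * h) n * Real.GammaSeq x n / Real.GammaSeq (x + h) n ^ 2 =
      ∏ j ∈ range (n + 1), F h (x + j) := by
  have hn' : (0 : ℝ) < n := by exact_mod_cast hn
  have hpow : (n : ℝ) ^ (x + 2 * h) * (n : ℝ) ^ x = ((n : ℝ) ^ (x + h)) ^ 2 := by
    rw [← Real.rpow_add hn', ← Real.rpow_natCast ((n : ℝ) ^ (x + h)) 2, ← Real.rpow_mul hn'.le]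
    congr 1
    push_cast
    ring
  have hP2 : (∏ j ∈ range (n + 1), (x + 2 * h + (j : ℝ))) ≠ 0 :=
    (Finset.prod_pos (fun j _ => by positivity)).ne'
  have hP0 : (∏ j ∈ range (n + 1), (x + (j : ℝ))) ≠ 0 :=
    (Finset.prod_pos (fun j _ => by positivity)).ne'
  have hP1 : (∏ j ∈ range (n + 1), (x + h + (j : ℝ))) ≠ 0 :=
    (Finset.prod_pos (fun j _ => by positivity)).ne'
  have hC : ((n : ℝ) ^ (x + h)) ≠ 0 := (Real.rpow_pos_of_pos hn' _).ne'
  have hf : ((n.factorial : ℕ) : ℝ) ≠ 0 := by exact_mod_cast n.factorial_ne_zero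
  have hR : ∏ j ∈ range (n + 1), F h (x + j) =
      (∏ j ∈ range (n + 1), (x + h + (j : ℝ))) ^ 2 /
        ((∏ j ∈ range (n + 1), (x + (j : ℝ))) * (∏ j ∈ range (n + 1), (x + 2 * h + (j : ℝ)))) := by
    rw [← Finset.prod_pow, ← Finset.prod_mul_distrib, ← Finset.prod_div_distrib]
    refine Finset.prod_congr rfl (fun j _ => ?_)
    unfold F
    congr 1
    · ring
    · ring
  rw [hR]
  unfold Real.GammaSeq
  set P0 := ∏ j ∈ range (n + 1), (x + (j : ℝ)) with hP0d
  set P1 := ∏ j ∈ range (n + 1), (x + h + (j : ℝ)) with hP1d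
  set P2 := ∏ j ∈ range (n + 1), (x + 2 * h + (j : ℝ)) with hP2d
  set A := (n : ℝ) ^ (x + 2 * h)
  set B := (n : ℝ) ^ x
  set C := (n : ℝ) ^ (x + h)
  set f := ((n.factorial : ℕ) : ℝ)
  have : A * f / P2 * (B * f / P0) / (C * f / P1) ^ 2 = (A * B) / C ^ 2 * (P1 ^ 2 / (P0 * P2)) := by
    field_simp
  rw [this, hpow, div_self (pow_ne_zero 2 hC), one_mul]

lemma seq_tendsto {h x : ℝ} (hh : 0 < h) (hx : 0 < x) :
    Tendsto (fun n : ℕ => ∏ j ∈ range (n + 1), F h (x + j)) atTop (𝓝 (Q h x)) := by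
  have h1 := Real.GammaSeq_tendsto_Gamma (x + 2 * h)
  have h2 := Real.GammaSeq_tendsto_Gamma x
  have h3 := Real.GammaSeq_tendsto_Gamma (x + h)
  have h4 : Real.Gamma (x + h) ^ 2 ≠ 0 := pow_ne_zero 2 (Real.Gamma_pos_of_pos (by positivity)).ne'
  have h5 := (h1.mul h2).div (h3.pow 2) h4
  refine h5.congr' ?_
  filter_upwards [eventually_gt_atTop 0] with n hn
  exact seq_eq hh hx hn

lemma Q_pos {h x : ℝ} (hh : 0 < h) (hx : 0 < x) : 0 < Q h x := by
  unfold Q
  have h1 : 0 < Real.Gamma (x + 2 * h) := Real.Gamma_pos_of_pos (by positivity)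
  have h2 : 0 < Real.Gamma x := Real.Gamma_pos_of_pos hx
  have h3 : 0 < Real.Gamma (x + h) := Real.Gamma_pos_of_pos (by positivity)
  positivity

lemma Q_anti {h x y : ℝ} (hh : 0 < h) (hx : 0 < x) (hxy : x < y) : Q h y < Q h x := by
  have hy : 0 < y := hx.trans hxy
  have hF : F h y < F h x := F_anti hh hx hxy
  have hFy := F_pos hh hy
  have key : F h x * Q h y ≤ F h y * Q h x := by
    refine le_of_tendsto_of_tendsto' ((seq_tendsto hh hy).const_mul (F h x))
      ((seq_tendsto hh hx).const_mul (F h y)) (fun n => ?_)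
    rw [Finset.prod_range_succ', Finset.prod_range_succ']
    simp only [Nat.cast_zero, add_zero]
    have : ∏ k ∈ range n, F h (y + ((k + 1 : ℕ) : ℝ)) ≤ ∏ k ∈ range n, F h (x + ((k + 1 : ℕ) : ℝ)) := by
      refine Finset.prod_le_prod (fun k _ => (F_pos hh (by positivity)).le) (fun k _ => ?_)
      exact (F_anti hh (by positivity) (by linarith)).le
    have hFx := F_pos hh hx
    calc F h x * ((∏ k ∈ range n, F h (y + ((k + 1 : ℕ) : ℝ))) * F h y)
        = (F h x * F h y) * (∏ k ∈ range n, F h (y + ((k + 1 : ℕ) : ℝ))) := by ring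
      _ ≤ (F h x * F h y) * (∏ k ∈ range n, F h (x + ((k + 1 : ℕ) : ℝ))) :=
          mul_le_mul_of_nonneg_left this (by positivity)
      _ = F h y * ((∏ k ∈ range n, F h (x + ((k + 1 : ℕ) : ℝ))) * F h x) := by ring
  have hQx := Q_pos hh hx
  have hQy := Q_pos hh hy
  by_contra hcon
  push Not at hcon
  have : F h y * Q h x < F h x * Q h y := by
    calc F h y * Q h x < F h x * Q h x := mul_lt_mul_of_pos_right hF hQx
      _ ≤ F h x * Q h y := mul_le_mul_of_nonneg_left hcon (F_pos hh hx).le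
  linarith

/-- the ratio with step `h` -/
noncomputable def r (h x : ℝ) : ℝ := Real.Gamma (x + h) / Real.Gamma x

lemma r_pos {h x : ℝ} (hh : 0 < h) (hx : 0 < x) : 0 < r h x := by
  unfold r
  exact div_pos (Real.Gamma_pos_of_pos (by positivity)) (Real.Gamma_pos_of_pos hx)

lemma Q_eq {h x : ℝ} (hh : 0 < h) (hx : 0 < x) : Q h x = r h (x + h) / r h x := by
  unfold Q r
  have h2 : Real.Gamma x ≠ 0 := (Real.Gamma_pos_of_pos hx).ne'
  have h3 : Real.Gamma (x + h) ≠ 0 := (Real.Gamma_pos_of_pos (by positivity)).ne'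
  have : x + h + h = x + 2 * h := by ring
  rw [this]
  field_simp

lemma tele {h x : ℝ} (hh : 0 < h) (hx : 0 < x) (n : ℕ) :
    ∏ i ∈ range n, Q h (x + i * h) = r h (x + n * h) / r h x := by
  induction n with
  | zero => simp [(r_pos hh hx).ne']
  | succ n ih =>
      rw [Finset.prod_range_succ, ih, Q_eq hh (by positivity)]
      have h1 : r h (x + n * h) ≠ 0 := (r_pos hh (by positivity)).ne'
      have h2 : r h x ≠ 0 := (r_pos hh hx).ne'
      have h3 : x + ((n + 1 : ℕ) : ℝ) * h = x + n * h + h := by push_cast; ring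
      rw [h3]
      field_simp

/-- one step -/
lemma step (d : ℕ) (hd : 2 ≤ d) (a : ℕ) :
    (Real.Gamma (1 + (((a + 1 : ℕ) : ℝ) + 1) / d) / Real.Gamma (1 + ((a + 1 : ℕ) : ℝ) / d)) ^ d /
        (((a + 1 : ℕ) : ℝ) + 1) <
    (Real.Gamma (1 + ((a : ℝ) + 1) / d) / Real.Gamma (1 + (a : ℝ) / d)) ^ d / ((a : ℝ) + 1) := by
  have hd0 : (0 : ℝ) < d := by exact_mod_cast (by omega : 0 < d)
  obtain ⟨h, hh⟩ : ∃ h : ℝ, h = 1 / d := ⟨_, rfl⟩
  obtain ⟨t, ht⟩ : ∃ t : ℝ, t = a / d := ⟨_, rfl⟩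
  have hpos : 0 < h := by rw [hh]; positivity
  have ht0 : 0 ≤ t := by rw [ht]; positivity
  have hdh : (d : ℝ) * h = 1 := by rw [hh]; field_simp
  -- the product
  have hprod : ∏ i ∈ range d, Q h (t + h + i * h) = (t + 2 * h) / (t + h) := by
    rw [tele hpos (by positivity) d, hdh]
    unfold r
    have e1 : t + h + 1 + h = (t + 2 * h) + 1 := by ring
    have e2 : t + h + h = t + 2 * h := by ring
    rw [e1, e2, Real.Gamma_add_one (by positivity : t + 2 * h ≠ 0),
      Real.Gamma_add_one (by positivity : t + h ≠ 0)]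
    have g1 : Real.Gamma (t + 2 * h) ≠ 0 := (Real.Gamma_pos_of_pos (by positivity)).ne'
    have g2 : Real.Gamma (t + h) ≠ 0 := (Real.Gamma_pos_of_pos (by positivity)).ne'
    have g3 : t + h ≠ 0 := by positivity
    field_simp
  have hlt : Q h (1 + t) ^ d < (t + 2 * h) / (t + h) := by
    rw [← hprod]
    have : Q h (1 + t) ^ d = ∏ i ∈ range d, Q h (1 + t) := by simp
    rw [this]
    have hle : ∀ i ∈ range d, i + 1 < d → Q h (1 + t) < Q h (t + h + i * h) := by
      intro i _ hi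
      refine Q_anti hpos (by positivity) ?_
      have : ((i : ℝ) + 1) < d := by exact_mod_cast hi
      have : ((i : ℝ) + 1) * h < d * h := mul_lt_mul_of_pos_right this hpos
      nlinarith
    refine Finset.prod_lt_prod (fun i _ => Q_pos hpos (by positivity)) (fun i hi => ?_) ⟨0, ?_, ?_⟩
    · rcases Nat.lt_or_ge (i + 1) d with h1 | h1
      · exact (hle i hi h1).le
      · have hi' := Finset.mem_range.mp hi
        have h2 : i + 1 = d := by omega
        have h3 : ((i : ℝ) + 1) = d := by exact_mod_cast h2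
        have h4 : t + h + i * h = 1 + t := by
          have : t + h + i * h = t + ((i : ℝ) + 1) * h := by ring
          rw [this, h3, hdh]; ring
        rw [h4]
    · exact Finset.mem_range.mpr (by omega)
    · exact hle 0 (Finset.mem_range.mpr (by omega)) (by omega)
  -- rewrite
  have e0 : 1 + (a : ℝ) / d = 1 + t := by rw [ht]
  have e1 : 1 + ((a : ℝ) + 1) / d = 1 + t + h := by rw [ht, hh]; ring
  have e1' : 1 + ((a + 1 : ℕ) : ℝ) / d = 1 + t + h := by rw [ht, hh]; push_cast; ring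
  have e2 : 1 + (((a + 1 : ℕ) : ℝ) + 1) / d = 1 + t + 2 * h := by rw [ht, hh]; push_cast; ring
  rw [e0, e1, e1', e2]
  have g0 : 0 < Real.Gamma (1 + t) := Real.Gamma_pos_of_pos (by positivity)
  have g1 : 0 < Real.Gamma (1 + t + h) := Real.Gamma_pos_of_pos (by positivity)
  have g2 : 0 < Real.Gamma (1 + t + 2 * h) := Real.Gamma_pos_of_pos (by positivity)
  have hq : Real.Gamma (1 + t + 2 * h) / Real.Gamma (1 + t + h) =
      Q h (1 + t) * (Real.Gamma (1 + t + h) / Real.Gamma (1 + t)) := by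
    unfold Q
    field_simp
  rw [hq, mul_pow]
  have hratio : (t + 2 * h) / (t + h) = (((a + 1 : ℕ) : ℝ) + 1) / ((a : ℝ) + 1) := by
    rw [ht, hh]
    push_cast
    have : (0:ℝ) < (a : ℝ) + 1 := by positivity
    field_simp
    ring
  rw [hratio] at hlt
  set X := (Real.Gamma (1 + t + h) / Real.Gamma (1 + t)) ^ d with hX
  have hXpos : 0 < X := by rw [hX]; positivity
  have ha1 : (0 : ℝ) < (a : ℝ) + 1 := by positivity
  have ha2 : (0 : ℝ) < ((a + 1 : ℕ) : ℝ) + 1 := by positivity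
  rw [div_lt_div_iff₀ ha2 ha1]
  rw [lt_div_iff₀ ha1] at hlt
  calc Q h (1 + t) ^ d * X * ((a : ℝ) + 1) = (Q h (1 + t) ^ d * ((a : ℝ) + 1)) * X := by ring
    _ < (((a + 1 : ℕ) : ℝ) + 1) * X := mul_lt_mul_of_pos_right hlt hXpos
    _ = X * (((a + 1 : ℕ) : ℝ) + 1) := by ring

theorem RAT : Pool.Agent.W2helper59.CW.P_RAT := by
  intro d a b hd hab
  have hanti : StrictAnti (fun a : ℕ =>
      (Real.Gamma (1 + ((a : ℝ) + 1) / d) / Real.Gamma (1 + (a : ℝ) / d)) ^ d / ((a : ℝ) + 1)) :=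
    strictAnti_nat_of_succ_lt (fun n => step d hd n)
  exact hanti hab

end Pool.Agent.W2helper87.CW
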